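import Pool.Agent.Helper84.Int.RS

/-! MP_ab4156_gt, PROJECT T, packet RSB: (RS4) suspension by `ℂ` and (RS5) periodicity. -/

open CategoryTheory Topology Filter Set Opposite

noncomputable section

namespace Pool.Agent.Helper65.Int

open Pool.Agent.Helper1.Stab Pool.Agent.Helper84.Sn Pool.Agent.Helper84.Int

section Susp
variable (R : Biv) (A B : LC)

/-- suspension of both factors by `ℂ` -/
def sMap (K Z : LC) (y : R.Hom (A.prod K) (B.prod Z)) :
    R.Hom ((LC.C.prod A).prod K) ((LC.C.prod B).prod Z) :=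
  R.comp (R.J (PMap.ofHomeo (LC.mid LC.C A K)))
    (R.comp (R.ltens LC.C y) (R.J (PMap.ofHomeo (LC.mid LC.C B Z).symm)))

theorem sMap_add (K Z : LC) (y z : R.Hom (A.prod K) (B.prod Z)) :
    sMap R A B K Z (y + z) = sMap R A B K Z y + sMap R A B K Z z := by
  unfold sMap
  rw [R.ltens_add, R.add_comp, R.comp_add]

theorem sMap_bij (K Z : LC) : Function.Bijective (sMap R A B K Z) :=
  (((R.invP_homeo (LC.mid LC.C A K)).pre_bij R (M := (LC.C.prod B).prod Z)).comp
      (((R.invP_homeo (LC.mid LC.C B Z).symm).post_bij R (K := LC.C.prod (A.prod K))).comp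
        (R.ltens_C_bijective (A.prod K) (B.prod Z))))

theorem sMap_nat {K L Z : LC} (φ : PMap K L.plus) (y : R.Hom (A.prod L) (B.prod Z)) :
    sMap R A B K Z (R.comp (R.J (PMap.ltens A φ)) y) =
      R.comp (R.J (PMap.ltens (LC.C.prod A) φ)) (sMap R A B L Z y) := by
  unfold sMap
  rw [R.ltens_J_comp, R.assoc, TL69.JJ, TL69.JJ]
  congr 2
  ext ⟨⟨c, a⟩, k⟩
  change smashPt LC.C (A.prod L) (((c : ℂ) : OnePoint ℂ), smashPt A L
    ((a : OnePoint A), φ k)) =
    (PMap.ofHomeo (LC.mid LC.C A L)).plus (smashPt (LC.C.prod A) L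
      (((c, a) : LC.C.prod A) , φ k))
  rcases φ k with _ | l <;> rfl

theorem sMap_susp {K Z : LC} (y : R.Hom (A.prod K) (B.prod Z)) :
    sMap R A B (LC.C.prod K) (LC.C.prod Z) (rsSusp R A B K Z y) =
      rsSusp R (LC.C.prod A) (LC.C.prod B) K Z (sMap R A B K Z y) := by
  rw [rsSusp_apply, rsSusp_apply]
  unfold sMap
  have e0 : ∀ {A B C : LC} (f : R.Hom A B) (g : R.Hom B C), R.ltens LC.C (R.comp f g) =
      R.comp (R.ltens LC.C f) (R.ltens LC.C g) := fun f g =>
    Helper39.Stab.ltens_comp R LC.C f g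
  have hll := tc_ll (R := R) LC.C LC.C y
  have hll2 : R.ltens LC.C (R.ltens LC.C y) =
      R.comp (R.J (PMap.ofHomeo (ll LC.C LC.C (A.prod K))))
        (R.comp (R.ltens LC.C (R.ltens LC.C y))
          (R.J (PMap.ofHomeo (ll LC.C LC.C (B.prod Z)).symm))) := by
    rw [← R.assoc, hll, R.assoc, J_homeo (R := R), one, R.comp_id]
  rw [e0, e0, e0, e0, ltens_J, ltens_J, ltens_J, ltens_J]
  conv_lhs => rw [hll2]
  simp only [R.assoc]
  simp only [TL69.JJ, J_J]
  rfl

end Susp

/-- (RS4) suspension by `ℂ` -/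
theorem rs_susp {R : Biv} {A B : LC} :
    Nonempty (RS R A B ≅ RS R (LC.C.prod A) (LC.C.prod B)) := by
  refine iso_ofMaps (RS R A B) (RS R (LC.C.prod A) (LC.C.prod B))
    (fun b K => AddMonoidHom.mk' (fun y => sMap R A B K.obj (Zb b) y)
      (fun y z => sMap_add R A B K.obj (Zb b) y z)) ?_ ?_ ?_
  · intro b K L φ y
    exact sMap_nat R A B φ y
  · intro b K y
    exact sMap_susp R A B y
  · intro b K
    exact sMap_bij R A B K.obj (Zb b)

section Per
variable (R : Biv) (A B V : LC) (p : Per R V)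

/-- composition with the periodicity class -/
def pMap (K Z : LC) (y : R.Hom (A.prod K) ((V.prod B).prod Z)) : R.Hom (A.prod K) (B.prod Z) :=
  R.comp y (R.comp (R.J (PMap.ofHomeo (LC.mid V B Z)))
    (R.comp (R.tens p.b (B.prod Z)) (R.J (PMap.ofHomeo (LC.lunit (B.prod Z))))))

theorem pMap_bij (K Z : LC) : Function.Bijective (pMap R A B V p K Z) := by
  have h1 := (R.invP_homeo (LC.mid V B Z)).post_bij R (K := A.prod K)
  have h2 := (basisEquiv54 p (A.prod K) (B.prod Z)).bijective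
  have e : pMap R A B V p K Z = (basisEquiv54 p (A.prod K) (B.prod Z)) ∘
      (fun y : R.Hom (A.prod K) ((V.prod B).prod Z) =>
        R.comp y (R.J (PMap.ofHomeo (LC.mid V B Z)))) := by
    funext y
    show pMap R A B V p K Z y = basisEquiv54 p (A.prod K) (B.prod Z) _
    rw [basisEquiv_apply54, R.assoc]
    rfl
  rw [e]
  exact h2.comp h1

theorem pMap_susp {K Z : LC} (y : R.Hom (A.prod K) ((V.prod B).prod Z)) :
    pMap R A B V p (LC.C.prod K) (LC.C.prod Z) (rsSusp R A (V.prod B) K Z y) =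
      rsSusp R A B K Z (pMap R A B V p K Z y) := by
  rw [rsSusp_apply, rsSusp_apply]
  unfold pMap
  have e0 : ∀ {A B C : LC} (f : R.Hom A B) (g : R.Hom B C), R.ltens LC.C (R.comp f g) =
      R.comp (R.ltens LC.C f) (R.ltens LC.C g) := fun f g =>
    Helper39.Stab.ltens_comp R LC.C f g
  have e1 := Helper39.Stab.ltens_tens_nf R LC.C p.b (B.prod Z)
  have e2 : R.comp (R.tens p.b (B.prod (LC.C.prod Z)))
      (R.J (PMap.ltens LC.point (PMap.ofHomeo (LC.frontC B Z)))) =
      R.comp (R.J (PMap.ltens V (PMap.ofHomeo (LC.frontC B Z))))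
        (R.tens p.b (LC.C.prod (B.prod Z))) := sq_exch p.b (PMap.ofHomeo (LC.frontC B Z))
  have e3 : R.tens p.b (B.prod (LC.C.prod Z)) =
      R.comp (R.J (PMap.ltens V (PMap.ofHomeo (LC.frontC B Z))))
        (R.comp (R.tens p.b (LC.C.prod (B.prod Z)))
          (R.J (PMap.ltens LC.point (PMap.ofHomeo (LC.frontC B Z).symm)))) := by
    rw [← R.assoc, ← e2, R.assoc, J_J]
    have h : (PMap.ltens LC.point (PMap.ofHomeo (LC.frontC B Z).symm)).comp
        (PMap.ltens LC.point (PMap.ofHomeo (LC.frontC B Z))) =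
        PMap.id (LC.point.prod (B.prod (LC.C.prod Z))) := PMap.ext fun k => rfl
    rw [h, R.comp_id]
  rw [e0, e0, e0, e1, ltens_J, ltens_J, e3]
  simp only [R.assoc]
  simp only [TL69.JJ, J_J]
  rfl

end Per

/-- (RS5) periodicity -/
theorem rs_per {R : Biv} {A B V : LC} (p : Per R V) :
    Nonempty (RS R A (V.prod B) ≅ RS R A B) := by
  refine iso_ofMaps (RS R A (V.prod B)) (RS R A B)
    (fun b K => AddMonoidHom.mk' (fun y => pMap R A B V p K.obj (Zb b) y)
      (fun y z => R.add_comp _ _ _)) ?_ ?_ ?_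
  · intro b K L φ y
    exact R.assoc _ _ _
  · intro b K y
    exact pMap_susp R A B V p y
  · intro b K
    exact pMap_bij R A B V p K.obj (Zb b)

end Pool.Agent.Helper65.Int
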